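import Pool.Agent.Lib.MP_3a7344_al.H84.Rel

set_option autoImplicit false

namespace Pool.Agent.Results.MP_3a7344_al.SlowSubset

open Pool.Agent.Lib.MP_3a7344_al

/-- Let `G` be a countably infinite group, `X` an infinite generating set of `G` and `F` a finite
subset of `X`. Then some infinite set `Z` with `F ⊆ Z ⊆ X` generates `G` and is slow: for every
`n` some element of `G` is not a product of at most `n` elements of `Z` and their inverses. -/
theorem result.{u} : ∀ (G : Type u) [Group G] [Countable G] [Infinite G] (X F : Set G),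
    X.Infinite → Subgroup.closure X = ⊤ → F.Finite → F ⊆ X →
    ∃ Z : Set G, F ⊆ Z ∧ Z ⊆ X ∧ Z.Infinite ∧ Subgroup.closure Z = ⊤ ∧
      ∀ n : ℕ, ∃ g : G, ∀ l : List G, l.length ≤ n → (∀ x ∈ l, x ∈ Z ∨ x⁻¹ ∈ Z) → l.prod ≠ g := by
  intro G _ _ _ X F hXi hXg hF hFX
  let e : Shrink.{0} G ≃* G := Shrink.mulEquiv
  have hinf : Infinite (Shrink.{0} G) := e.toEquiv.infinite_iff.2 inferInstance
  have hc : Countable (Shrink.{0} G) := e.toEquiv.countable_iff.2 inferInstance
  have hXg' : Subgroup.closure (e.symm '' X) = ⊤ := by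
    have h := MonoidHom.map_closure (e.symm : G →* Shrink.{0} G) X
    rw [hXg] at h
    have h2 : Subgroup.map (e.symm : G →* Shrink.{0} G) ⊤ = ⊤ :=
      Subgroup.map_top_of_surjective _ e.symm.surjective
    rw [h2] at h
    exact h.symm
  obtain ⟨Z, hFZ, hZX, hZi, hZg, hZ⟩ := H84.slow_sub (G := Shrink.{0} G) (F := e.symm '' F)
    (X₀ := e.symm '' X) (hF.image _) (Set.image_mono hFX)
    (hXi.image e.symm.injective.injOn) hXg'
  refine ⟨e '' Z, ?_, ?_, hZi.image e.injective.injOn, ?_, ?_⟩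
  · intro x hx
    exact ⟨e.symm x, hFZ ⟨x, hx, rfl⟩, e.apply_symm_apply x⟩
  · rintro _ ⟨z, hz, rfl⟩
    obtain ⟨x, hx, rfl⟩ := hZX hz
    rw [e.apply_symm_apply]
    exact hx
  · have h := MonoidHom.map_closure (e : Shrink.{0} G →* G) Z
    rw [hZg] at h
    have h2 : Subgroup.map (e : Shrink.{0} G →* G) ⊤ = ⊤ :=
      Subgroup.map_top_of_surjective _ e.surjective
    rw [h2] at h
    exact h.symm
  · intro n
    obtain ⟨g, hg⟩ := (Set.ne_univ_iff_exists_notMem _).1 (hZ n)
    refine ⟨e g, ?_⟩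
    intro l hl hlZ hlp
    apply hg
    refine ⟨l.map e.symm, by rw [List.length_map]; exact hl, ?_, ?_⟩
    · intro x hx
      obtain ⟨y, hy, rfl⟩ := List.mem_map.1 hx
      rcases hlZ y hy with ⟨z, hz, hzy⟩ | ⟨z, hz, hzy⟩
      · left
        rw [← hzy, e.symm_apply_apply]
        exact hz
      · right
        rw [← map_inv, ← hzy, e.symm_apply_apply]
        exact hz
    · have h := map_list_prod e.symm l
      rw [hlp, e.symm_apply_apply] at h
      exact h.symm

end Pool.Agent.Results.MP_3a7344_al.SlowSubset
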